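import Mathlib

/-!
# MP_270b6b_co: certificates for counterexamples (helper87)

Vertices `0, .., 2n+D-1`. The hub `0` is adjacent to all others; `n+1, .., 2n+D-1` is independent; the pairs
which meet `1, .., n` are adjacent except for the pairs in the list `L`. `ok n D L` is a terminating
search which shows that no set of `n + D` vertices `≥ 1` has the property that each of its elements
`a ≤ n` has `D` non-neighbours (pairs of `L`) in it; then the graph has no good partition.
-/

set_option autoImplicit false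

namespace Pool.Agent.Lib.MP_270b6b_co.Cert

open Finset

/-- the list of the vertices which form a pair of `L` with `a` -/
def nbl (L : List (ℕ × ℕ)) (a : ℕ) : List ℕ :=
  L.filterMap (fun p => if p.1 = a then some p.2 else if p.2 = a then some p.1 else none)

/-- reasons to stop -/
def stop (n D K : ℕ) (L : List (ℕ × ℕ)) (r : ℕ) (ins outs : List ℕ) : Bool :=
  decide (ins.length + r < K) || (decide (K < ins.length) ||
    ins.any (fun a => decide (a ≤ n) && decide ((nbl L a).countP (fun x => !outs.elem x) < D)))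

/-- the search -/
def run (n D K : ℕ) (L : List (ℕ × ℕ)) : List ℕ → List ℕ → List ℕ → Bool
  | [], ins, outs => stop n D K L 0 ins outs
  | v :: vs, ins, outs => stop n D K L (vs.length + 1) ins outs ||
      (run n D K L vs (v :: ins) outs && run n D K L vs ins (v :: outs))

lemma stop_false (n D K : ℕ) (L : List (ℕ × ℕ)) (r : ℕ) (ins outs : List ℕ) (S : Finset ℕ)
    (hK : S.card = K) (hS : ∀ a ∈ S, a ≤ n → D ≤ (nbl L a).countP (fun x => decide (x ∈ S)))
    (hi : ∀ x ∈ ins, x ∈ S) (ho : ∀ x ∈ outs, x ∉ S) (h1 : S.card ≤ ins.length + r)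
    (h2 : ins.length ≤ S.card) : stop n D K L r ins outs = false := by
  unfold stop
  rw [Bool.or_eq_false_iff, Bool.or_eq_false_iff, decide_eq_false_iff_not, decide_eq_false_iff_not,
    List.any_eq_false]
  refine ⟨by omega, by omega, ?_⟩
  intro a ha h
  rw [Bool.and_eq_true, decide_eq_true_eq, decide_eq_true_eq] at h
  have h3 := hS a (hi a ha) h.1
  have h4 : (nbl L a).countP (fun x => decide (x ∈ S)) ≤
      (nbl L a).countP (fun x => !outs.elem x) := by
    apply List.countP_mono_left
    intro x _ hx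
    rw [decide_eq_true_eq] at hx
    rw [Bool.not_eq_true', ← Bool.not_eq_true, List.elem_eq_mem, decide_eq_true_eq]
    intro hxo
    exact ho x hxo hx
  omega

lemma run_false (n D K : ℕ) (L : List (ℕ × ℕ)) (S : Finset ℕ)
    (hK : S.card = K) (hS : ∀ a ∈ S, a ≤ n → D ≤ (nbl L a).countP (fun x => decide (x ∈ S))) :
    ∀ (vs ins outs : List ℕ), (∀ x ∈ ins, x ∈ S) → (∀ x ∈ outs, x ∉ S) →
      S.card = ins.length + vs.countP (fun x => decide (x ∈ S)) →
      run n D K L vs ins outs = false := by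
  intro vs
  induction vs with
  | nil =>
    intro ins outs hi ho hc
    rw [List.countP_nil] at hc
    unfold run
    exact stop_false n D K L 0 ins outs S hK hS hi ho (by omega) (by omega)
  | cons v vs ih =>
    intro ins outs hi ho hc
    have hle : (v :: vs).countP (fun x => decide (x ∈ S)) ≤ (v :: vs).length :=
      List.countP_le_length
    rw [List.length_cons] at hle
    unfold run
    rw [Bool.or_eq_false_iff]
    refine ⟨stop_false n D K L (vs.length + 1) ins outs S hK hS hi ho (by omega) (by omega), ?_⟩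
    by_cases hv : v ∈ S
    · rw [List.countP_cons_of_pos (by rw [decide_eq_true_eq]; exact hv)] at hc
      rw [ih (v :: ins) outs (by
        intro x hx
        rcases List.mem_cons.1 hx with rfl | hx
        · exact hv
        · exact hi x hx) ho (by rw [List.length_cons]; omega), Bool.false_and]
    · rw [List.countP_cons_of_neg (by rw [decide_eq_true_eq]; exact hv)] at hc
      rw [ih ins (v :: outs) hi (by
        intro x hx
        rcases List.mem_cons.1 hx with rfl | hx
        · exact hv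
        · exact ho x hx) hc, Bool.and_false]

/-- the whole check -/
def ok (n D : ℕ) (L : List (ℕ × ℕ)) : Bool :=
  (L.all (fun p => decide (1 ≤ p.1) && (decide (p.1 ≤ n) && (decide (p.1 < p.2) &&
    decide (p.2 ≤ 2 * n + D - 1)))) && decide L.Nodup) &&
    run n D (n + D) L (List.range' 1 (2 * n + D - 1)) [] []

/-- the pairs of vertices among `0, .., 2n+D-1` which are not adjacent -/
def NE (n D : ℕ) (L : List (ℕ × ℕ)) : Finset (Sym2 ℕ) :=
  ((Ioc n (2 * n + D - 1)).offDiag.image (fun x => s(x.1, x.2))) ∪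
    L.toFinset.image (fun x => s(x.1, x.2))

/-- all pairs among `0, .., 2n+D-1` -/
def Al (n D : ℕ) : Finset (Sym2 ℕ) := (range (2 * n + D)).offDiag.image (fun x => s(x.1, x.2))

/-- the edges of the graph -/
def E (n D : ℕ) (L : List (ℕ × ℕ)) : Finset (Sym2 ℕ) := Al n D \ NE n D L

lemma ok_all {n D : ℕ} {L : List (ℕ × ℕ)} (h : ok n D L = true) :
    (∀ p ∈ L, 1 ≤ p.1 ∧ p.1 ≤ n ∧ p.1 < p.2 ∧ p.2 ≤ 2 * n + D - 1) ∧ L.Nodup ∧
      run n D (n + D) L (List.range' 1 (2 * n + D - 1)) [] [] = true := by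
  unfold ok at h
  rw [Bool.and_eq_true, Bool.and_eq_true, List.all_eq_true, decide_eq_true_eq] at h
  refine ⟨fun p hp => ?_, h.1.2, h.2⟩
  have h1 := h.1.1 p hp
  rw [Bool.and_eq_true, Bool.and_eq_true, Bool.and_eq_true, decide_eq_true_eq, decide_eq_true_eq,
    decide_eq_true_eq, decide_eq_true_eq] at h1
  exact h1

lemma NE_sub (n D : ℕ) (L : List (ℕ × ℕ)) (hD : 1 ≤ D)
    (hL : ∀ p ∈ L, 1 ≤ p.1 ∧ p.1 ≤ n ∧ p.1 < p.2 ∧ p.2 ≤ 2 * n + D - 1) :
    NE n D L ⊆ Al n D := by
  intro e he
  unfold NE at he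
  unfold Al
  rw [mem_union, mem_image, mem_image] at he
  rw [mem_image]
  rcases he with ⟨p, hp, rfl⟩ | ⟨p, hp, rfl⟩
  · rw [mem_offDiag, mem_Ioc, mem_Ioc] at hp
    refine ⟨p, ?_, rfl⟩
    rw [mem_offDiag, mem_range, mem_range]
    exact ⟨by omega, by omega, hp.2.2⟩
  · rw [List.mem_toFinset] at hp
    have h1 := hL p hp
    refine ⟨p, ?_, rfl⟩
    rw [mem_offDiag, mem_range, mem_range]
    exact ⟨by omega, by omega, by omega⟩

lemma card_NE (n D : ℕ) (L : List (ℕ × ℕ))
    (hL : ∀ p ∈ L, 1 ≤ p.1 ∧ p.1 ≤ n ∧ p.1 < p.2 ∧ p.2 ≤ 2 * n + D - 1) (hnd : L.Nodup) :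
    (NE n D L).card = (n + D - 1).choose 2 + L.length := by
  have c1 : ((Ioc n (2 * n + D - 1)).offDiag.image (fun x => s(x.1, x.2))).card =
      (n + D - 1).choose 2 := by
    have := Sym2.card_image_offDiag (Ioc n (2 * n + D - 1))
    rw [Nat.card_Ioc, show 2 * n + D - 1 - n = n + D - 1 by omega] at this
    exact this
  have c2 : (L.toFinset.image (fun x => s(x.1, x.2))).card = L.length := by
    rw [card_image_of_injOn, List.toFinset_card_of_nodup hnd]
    intro p hp q hq h
    rw [mem_coe, List.mem_toFinset] at hp hq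
    have h1 := hL p hp
    have h2 := hL q hq
    simp only [Sym2.eq_iff] at h
    rcases h with h | h
    · exact Prod.ext h.1 h.2
    · omega
  unfold NE
  rw [card_union_of_disjoint, c1, c2]
  rw [disjoint_left]
  intro e h1 h2
  rw [mem_image] at h1 h2
  obtain ⟨p, hp, rfl⟩ := h1
  obtain ⟨q, hq, h⟩ := h2
  rw [mem_offDiag, mem_Ioc, mem_Ioc] at hp
  rw [List.mem_toFinset] at hq
  have h1 := hL q hq
  simp only [Sym2.eq_iff] at h
  omega

lemma card_E (n D : ℕ) (L : List (ℕ × ℕ)) (hD : 1 ≤ D)
    (hL : ∀ p ∈ L, 1 ≤ p.1 ∧ p.1 ≤ n ∧ p.1 < p.2 ∧ p.2 ≤ 2 * n + D - 1) (hnd : L.Nodup) :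
    (E n D L).card = (2 * n + D).choose 2 - (n + D - 1).choose 2 - L.length := by
  have h1 : (E n D L).card + (NE n D L).card = (Al n D).card :=
    card_sdiff_add_card_eq_card (NE_sub n D L hD hL)
  have h2 : (Al n D).card = (2 * n + D).choose 2 := by
    have := Sym2.card_image_offDiag (range (2 * n + D))
    rw [card_range] at this
    exact this
  rw [card_NE n D L hL hnd, h2] at h1
  omega

lemma mem_nbl {L : List (ℕ × ℕ)} {a x : ℕ} (h : (a, x) ∈ L ∨ (x, a) ∈ L) : x ∈ nbl L a := by
  unfold nbl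
  rw [List.mem_filterMap]
  rcases h with h | h
  · exact ⟨(a, x), h, by simp⟩
  · refine ⟨(x, a), h, ?_⟩
    by_cases hx : x = a
    · simp [hx]
    · simp [hx]

lemma mem_E_hub (n D v : ℕ) (L : List (ℕ × ℕ))
    (hL : ∀ p ∈ L, 1 ≤ p.1 ∧ p.1 ≤ n ∧ p.1 < p.2 ∧ p.2 ≤ 2 * n + D - 1)
    (hv : 1 ≤ v) (hv' : v < 2 * n + D) : s(0, v) ∈ E n D L := by
  unfold E
  rw [mem_sdiff]
  constructor
  · unfold Al
    rw [mem_image]
    refine ⟨(0, v), ?_, rfl⟩
    rw [mem_offDiag, mem_range, mem_range]
    refine ⟨by omega, by omega, ?_⟩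
    change 0 ≠ v
    omega
  · intro h
    unfold NE at h
    rw [mem_union, mem_image, mem_image] at h
    rcases h with ⟨p, hp, h⟩ | ⟨p, hp, h⟩
    · rw [mem_offDiag, mem_Ioc, mem_Ioc] at hp
      simp only [Sym2.eq_iff] at h
      omega
    · rw [List.mem_toFinset] at hp
      have h1 := hL p hp
      simp only [Sym2.eq_iff] at h
      omega

lemma mem_E (n D a v : ℕ) (L : List (ℕ × ℕ))
    (ha' : a ≤ n) (hD : 1 ≤ D)
    (hv' : v < 2 * n + D) (hav : v ≠ a) (hnb : v ∉ nbl L a) : s(a, v) ∈ E n D L := by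
  unfold E
  rw [mem_sdiff]
  constructor
  · unfold Al
    rw [mem_image]
    refine ⟨(a, v), ?_, rfl⟩
    rw [mem_offDiag, mem_range, mem_range]
    refine ⟨by omega, by omega, ?_⟩
    change a ≠ v
    omega
  · intro h
    unfold NE at h
    rw [mem_union, mem_image, mem_image] at h
    rcases h with ⟨p, hp, h⟩ | ⟨p, hp, h⟩
    · rw [mem_offDiag, mem_Ioc, mem_Ioc] at hp
      simp only [Sym2.eq_iff] at h
      omega
    · rw [List.mem_toFinset] at hp
      apply hnb
      apply mem_nbl
      simp only [Sym2.eq_iff] at h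
      rcases h with ⟨h1, h2⟩ | ⟨h1, h2⟩
      · left
        rwa [← h1, ← h2]
      · right
        rwa [← h1, ← h2]

/-- the main argument -/
lemma not_good (n D m : ℕ) (L : List (ℕ × ℕ)) (hn : 1 ≤ n) (hD : 1 ≤ D) (hL : ok n D L = true)
    (hm : 2 * n + D ≤ m) (G : SimpleGraph (Fin m))
    (hG : ∀ v w : Fin m, s(v.1, w.1) ∈ E n D L → G.Adj v w) (c : Fin m → Bool)
    (hc : ∀ v, ({w : Fin m | G.Adj v w ∧ c w = c v} : Set (Fin m)).ncard ≤ n - 1) : False := by
  classical
  obtain ⟨hL1, hnd, hrun⟩ := ok_all hL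
  let k : Bool := c ⟨0, by omega⟩
  let c' : ℕ → Bool := fun v => if h : v < m then c ⟨v, h⟩ else k
  have hc' : ∀ (v : ℕ) (h : v < m), c' v = c ⟨v, h⟩ := fun v h => dif_pos h
  have hc0 : c' 0 = k := hc' 0 (by omega)
  -- the bound for the degrees in the own part
  have own : ∀ a : ℕ, a < m → ∀ X : Finset ℕ, (∀ x ∈ X, x < m ∧ s(a, x) ∈ E n D L ∧ c' x = c' a) →
      X.card ≤ n - 1 := by
    intro a ha X hX
    have h1 := hc ⟨a, ha⟩
    have h2 : (((X.attachFin fun x hx => (hX x hx).1) : Finset (Fin m)) : Set (Fin m)) ⊆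
        {w : Fin m | G.Adj ⟨a, ha⟩ w ∧ c w = c ⟨a, ha⟩} := by
      intro w hw
      rw [mem_coe, mem_attachFin] at hw
      obtain ⟨h3, h4, h5⟩ := hX w.1 hw
      refine ⟨hG _ _ h4, ?_⟩
      rw [hc' w.1 w.2, hc' a ha] at h5
      exact h5
    have h3 := Set.ncard_le_ncard h2 (Set.toFinite _)
    rw [Set.ncard_coe_finset, card_attachFin] at h3
    omega
  let B : Finset ℕ := (Icc 1 (2 * n + D - 1)).filter (fun v => c' v ≠ k)
  have memB : ∀ v, v ∈ B ↔ (1 ≤ v ∧ v ≤ 2 * n + D - 1) ∧ c' v ≠ k := by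
    intro v
    simp only [B, mem_filter, mem_Icc]
  -- the hub
  have hB1 : n + D ≤ B.card := by
    have h1 := own 0 (by omega) ((Icc 1 (2 * n + D - 1)).filter (fun v => c' v = k)) (by
      intro x hx
      rw [mem_filter, mem_Icc] at hx
      refine ⟨by omega, mem_E_hub n D x L hL1 hx.1.1 (by omega), ?_⟩
      rw [hx.2, hc0])
    have h2 := card_filter_add_card_filter_not (s := Icc 1 (2 * n + D - 1)) (fun v => c' v = k)
    rw [Nat.card_Icc] at h2
    have h3 : B.card = ((Icc 1 (2 * n + D - 1)).filter (fun v => ¬ c' v = k)).card := rfl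
    omega
  -- the vertices `1, .., n` on the other side
  have hkey : ∀ a ∈ B, a ≤ n → B.card ≤ n + (B ∩ (nbl L a).toFinset).card := by
    intro a ha han
    obtain ⟨⟨ha1, ha2⟩, ha3⟩ := (memB a).1 ha
    have h1 := own a (by omega) ((B.erase a) \ (nbl L a).toFinset) (by
      intro x hx
      rw [mem_sdiff, mem_erase, List.mem_toFinset] at hx
      obtain ⟨⟨hx1, hx2⟩, hx3⟩ := (memB x).1 hx.1.2
      refine ⟨by omega, mem_E n D a x L han hD (by omega) hx.1.1 hx.2, ?_⟩
      revert hx3 ha3
      cases c' x <;> cases c' a <;> cases k <;> simp)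
    have h2 : ((B.erase a) \ (nbl L a).toFinset).card + ((B.erase a) ∩ (nbl L a).toFinset).card =
        (B.erase a).card := card_sdiff_add_card_inter _ _
    have h3 : ((B.erase a) ∩ (nbl L a).toFinset).card ≤ (B ∩ (nbl L a).toFinset).card :=
      card_le_card (inter_subset_inter (erase_subset _ _) (subset_refl _))
    rw [card_erase_of_mem ha] at h2
    omega
  obtain ⟨S, hSB, hSc⟩ := exists_subset_card_eq hB1
  have hSkey : ∀ a ∈ S, a ≤ n → D ≤ (nbl L a).countP (fun x => decide (x ∈ S)) := by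
    intro a ha han
    have h1 := hkey a (hSB ha) han
    have h2 : (B ∩ (nbl L a).toFinset).card ≤ (S ∩ (nbl L a).toFinset).card + (B \ S).card := by
      rw [← card_union_of_disjoint]
      · apply card_le_card
        intro x hx
        rw [mem_inter] at hx
        rw [mem_union, mem_inter, mem_sdiff]
        by_cases hxS : x ∈ S
        · exact Or.inl ⟨hxS, hx.2⟩
        · exact Or.inr ⟨hx.1, hxS⟩
      · rw [disjoint_left]
        intro x hx hx'
        exact (mem_sdiff.1 hx').2 (mem_inter.1 hx).1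
    have h3 : (B \ S).card + S.card = B.card := card_sdiff_add_card_eq_card hSB
    have h4 : (S ∩ (nbl L a).toFinset).card ≤ (nbl L a).countP (fun x => decide (x ∈ S)) := by
      rw [List.countP_eq_length_filter]
      refine le_trans (card_le_card ?_) (List.toFinset_card_le _)
      intro x hx
      rw [mem_inter, List.mem_toFinset] at hx
      rw [List.mem_toFinset, List.mem_filter, decide_eq_true_eq]
      exact ⟨hx.2, hx.1⟩
    omega
  have hcount : S.card = ([] : List ℕ).length +
      (List.range' 1 (2 * n + D - 1)).countP (fun x => decide (x ∈ S)) := by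
    rw [List.countP_eq_length_filter, List.length_nil, zero_add,
      ← List.toFinset_card_of_nodup (List.Nodup.filter _ List.nodup_range')]
    congr 1
    ext x
    rw [List.mem_toFinset, List.mem_filter, decide_eq_true_eq, List.mem_range'_1]
    constructor
    · intro hx
      have h1 := ((memB x).1 (hSB hx)).1
      exact ⟨by omega, hx⟩
    · intro hx
      exact hx.2
  have hfalse := run_false n D (n + D) L S hSc hSkey (List.range' 1 (2 * n + D - 1)) [] []
    (by intro x hx; exact absurd hx List.not_mem_nil)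
    (by intro x hx; exact absurd hx List.not_mem_nil) hcount
  rw [hrun] at hfalse
  exact Bool.noConfusion hfalse

/-- If the check succeeds and the number of the edges is right then on every number `m ≥ 2n + D` of vertices
some graph with exactly `binom(2n+1,2) - binom(n,2) - 1` edges is not the union of a bipartite graph and
a graph of maximum degree at most `n - 1`. -/
theorem fails_of (n D : ℕ) (L : List (ℕ × ℕ)) (hn : 1 ≤ n) (hD : 1 ≤ D) (hL : ok n D L = true)
    (hcard : (2 * n + D).choose 2 - (n + D - 1).choose 2 - L.length =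
      (2 * n + 1).choose 2 - n.choose 2 - 1) : ∀ m : ℕ, 2 * n + D ≤ m →
    ∃ G : SimpleGraph (Fin m), G.edgeSet.ncard = (2 * n + 1).choose 2 - n.choose 2 - 1 ∧
      ¬ ∃ B D : SimpleGraph (Fin m), B.Colorable 2 ∧ (∀ v, (D.neighborSet v).ncard ≤ n - 1) ∧
        G = B ⊔ D := by
  classical
  intro m hm
  obtain ⟨hL1, hnd, hrun⟩ := ok_all hL
  let G : SimpleGraph (Fin m) := SimpleGraph.fromRel (fun v w : Fin m => s(v.1, w.1) ∈ E n D L)
  have hne : ∀ a b : ℕ, s(a, b) ∈ E n D L → a ≠ b ∧ a < m ∧ b < m := by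
    intro a b h
    have h1 : s(a, b) ∈ Al n D := (mem_sdiff.1 h).1
    unfold Al at h1
    simp only [mem_image, mem_offDiag, mem_range, Prod.exists, Sym2.eq_iff] at h1
    obtain ⟨x, y, h2, h3⟩ := h1
    omega
  have hadj : ∀ v w : Fin m, G.Adj v w ↔ s(v.1, w.1) ∈ E n D L := by
    intro v w
    rw [SimpleGraph.fromRel_adj]
    constructor
    · rintro ⟨_, h | h⟩
      · exact h
      · rwa [Sym2.eq_swap]
    · intro h
      exact ⟨fun h' => (hne _ _ h).1 (congrArg Fin.val h'), Or.inl h⟩
  refine ⟨G, ?_, ?_⟩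
  · have h1 : (Sym2.map Fin.val) '' G.edgeSet = (E n D L : Set (Sym2 ℕ)) := by
      ext e
      constructor
      · rintro ⟨e', he', rfl⟩
        induction e' using Sym2.ind with
        | _ v w =>
          exact (hadj v w).1 he'
      · intro he
        induction e using Sym2.ind with
        | _ a b =>
          obtain ⟨h2, h3, h4⟩ := hne a b he
          refine ⟨s(⟨a, h3⟩, ⟨b, h4⟩), ?_, rfl⟩
          exact (hadj ⟨a, h3⟩ ⟨b, h4⟩).2 he
    have h2 : G.edgeSet.ncard = ((Sym2.map Fin.val) '' G.edgeSet).ncard :=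
      (Set.ncard_image_of_injective _ (Sym2.map.injective Fin.val_injective)).symm
    rw [h2, h1, Set.ncard_coe_finset, card_E n D L hD hL1 hnd, hcard]
  · rintro ⟨B, D', hB, hD', hG⟩
    obtain ⟨C⟩ := hB
    refine not_good n D m L hn hD hL hm G (fun v w h => (hadj v w).2 h)
      (fun v => decide (C v = 0)) ?_
    intro v
    refine le_trans ?_ (hD' v)
    apply Set.ncard_le_ncard _ (Set.toFinite _)
    intro w hw
    rw [SimpleGraph.mem_neighborSet]
    have hadj' : (B ⊔ D').Adj v w := by rw [← hG]; exact hw.1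
    rw [SimpleGraph.sup_adj] at hadj'
    rcases hadj' with h | h
    · exfalso
      have hne' := C.valid h
      have heq := hw.2
      rw [decide_eq_decide] at heq
      have c1 : C v = 0 ∨ C v = 1 := by
        generalize C v = x; fin_cases x <;> simp
      have c2 : C w = 0 ∨ C w = 1 := by
        generalize C w = x; fin_cases x <;> simp
      rcases c1 with h1 | h1 <;> rcases c2 with h2 | h2 <;> simp_all
    · exact h

end Pool.Agent.Lib.MP_270b6b_co.Cert
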