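import Mathlib

/-!
# MP_270b6b_co: counterexamples on `m` vertices for all `n ≥ 14` and all `m ≥ 2n + 3` (helper87)

The graph on the vertices `0, .., 2n+2`: the hub `0` is adjacent to all others; `1, .., n` is a clique
except for the edges of a spider (centre `1`, five legs, `b` is joined to its parent `b - 5`, or to `1`
if `b ≤ 6`); `n+1, .., 2n+2` is independent; and `a` in `1, .., n` is adjacent to all of
`n+1, .., 2n+2` except `n + a - 1` (for `a ≥ 2`) and, for the last five `a`, one more.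
-/

set_option autoImplicit false

namespace Pool.Agent.Lib.MP_270b6b_co.Spider14

open Finset

/-- the index of the additional non-neighbour of the leaf `n - i` -/
def ex (i : ℕ) : ℕ := if i = 4 then 0 else if i = 3 then 1 else 2

/-- the pairs of vertices among `0, .., 2n+2` which are not adjacent -/
def NE (n : ℕ) : Finset (Sym2 ℕ) :=
  ((Ioc n (2 * n + 2)).offDiag.image (fun x => s(x.1, x.2)) ∪
    (Icc 2 n).image (fun b => s(b - 6 + 1, b))) ∪
   ((Icc 2 n).image (fun a => s(a, n + a - 1)) ∪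
    (range 5).image (fun i => s(n - i, 2 * n + ex i)))

/-- all pairs among `0, .., 2n+2` -/
def Al (n : ℕ) : Finset (Sym2 ℕ) := (range (2 * n + 3)).offDiag.image (fun x => s(x.1, x.2))

/-- the edges of the graph -/
def E (n : ℕ) : Finset (Sym2 ℕ) := Al n \ NE n

lemma two_choose (k : ℕ) : 2 * k.choose 2 + k = k * k := by
  induction k with
  | zero => simp
  | succ k ih =>
    rw [Nat.choose_succ_succ' k 1]
    simp only [Nat.choose_one_right]
    nlinarith [ih]

lemma ex_le (i : ℕ) : ex i ≤ 2 := by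
  unfold ex
  split_ifs <;> omega

lemma NE_sub (n : ℕ) (hn : 14 ≤ n) : NE n ⊆ Al n := by
  intro e he
  unfold NE at he
  unfold Al
  simp only [mem_union, mem_image, mem_offDiag, mem_Ioc, mem_Icc, mem_range, Prod.exists] at he ⊢
  rcases he with (⟨a, b, ⟨h1, h2, h3⟩, rfl⟩ | ⟨b, h, rfl⟩) | (⟨a, h, rfl⟩ | ⟨i, h, rfl⟩)
  · exact ⟨a, b, ⟨by omega, by omega, h3⟩, rfl⟩
  · exact ⟨b - 6 + 1, b, ⟨by omega, by omega, by omega⟩, rfl⟩
  · exact ⟨a, n + a - 1, ⟨by omega, by omega, by omega⟩, rfl⟩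
  · have := ex_le i
    exact ⟨n - i, 2 * n + ex i, ⟨by omega, by omega, by omega⟩, rfl⟩

lemma card_NE (n : ℕ) (hn : 14 ≤ n) : (NE n).card = (n + 2).choose 2 + (n - 1) + (n - 1) + 5 := by
  have c1 : ((Ioc n (2 * n + 2)).offDiag.image (fun x => s(x.1, x.2))).card = (n + 2).choose 2 := by
    have := Sym2.card_image_offDiag (Ioc n (2 * n + 2))
    rw [Nat.card_Ioc, show 2 * n + 2 - n = n + 2 by omega] at this
    exact this
  have c2 : ((Icc 2 n).image (fun b => s(b - 6 + 1, b))).card = n - 1 := by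
    rw [card_image_of_injOn, Nat.card_Icc]
    · omega
    · intro a ha b hb h
      simp only [coe_Icc, Set.mem_Icc] at ha hb
      simp only [Sym2.eq_iff] at h
      omega
  have c3 : ((Icc 2 n).image (fun a => s(a, n + a - 1))).card = n - 1 := by
    rw [card_image_of_injOn, Nat.card_Icc]
    · omega
    · intro a ha b hb h
      simp only [coe_Icc, Set.mem_Icc] at ha hb
      simp only [Sym2.eq_iff] at h
      omega
  have c4 : ((range 5).image (fun i => s(n - i, 2 * n + ex i))).card = 5 := by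
    rw [card_image_of_injOn, card_range]
    intro a ha b hb h
    simp only [coe_range, Set.mem_Iio] at ha hb
    simp only [Sym2.eq_iff] at h
    omega
  unfold NE
  rw [card_union_of_disjoint, card_union_of_disjoint, card_union_of_disjoint, c1, c2, c3, c4]
  · omega
  · rw [disjoint_left]
    intro e h1 h2
    simp only [mem_image, mem_Icc, mem_range] at h1 h2
    obtain ⟨a, ha, rfl⟩ := h1
    obtain ⟨i, hi, h⟩ := h2
    simp only [Sym2.eq_iff] at h
    omega
  · rw [disjoint_left]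
    intro e h1 h2
    simp only [mem_image, mem_Icc, mem_offDiag, mem_Ioc, Prod.exists] at h1 h2
    obtain ⟨a, b, hab, rfl⟩ := h1
    obtain ⟨i, hi, h⟩ := h2
    simp only [Sym2.eq_iff] at h
    omega
  · rw [disjoint_left]
    intro e h1 h2
    simp only [mem_union, mem_image, mem_Icc, mem_offDiag, mem_Ioc, mem_range, Prod.exists] at h1 h2
    rcases h1 with ⟨a, b, hab, rfl⟩ | ⟨b, hb, rfl⟩
    · rcases h2 with ⟨i, hi, h⟩ | ⟨i, hi, h⟩
      · simp only [Sym2.eq_iff] at h
        omega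
      · simp only [Sym2.eq_iff] at h
        omega
    · rcases h2 with ⟨i, hi, h⟩ | ⟨i, hi, h⟩
      · simp only [Sym2.eq_iff] at h
        omega
      · simp only [Sym2.eq_iff] at h
        omega

lemma card_E (n : ℕ) (hn : 14 ≤ n) : (E n).card = (2 * n + 1).choose 2 - n.choose 2 - 1 := by
  have h1 : (E n).card + (NE n).card = (Al n).card := card_sdiff_add_card_eq_card (NE_sub n hn)
  have h2 : (Al n).card = (2 * n + 3).choose 2 := by
    have := Sym2.card_image_offDiag (range (2 * n + 3))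
    rw [card_range] at this
    exact this
  rw [card_NE n hn, h2] at h1
  have t1 := two_choose (2 * n + 1)
  have t2 := two_choose n
  have t3 := two_choose (n + 2)
  have t4 := two_choose (2 * n + 3)
  have e1 : (2 * n + 1) * (2 * n + 1) = 4 * (n * n) + 4 * n + 1 := by ring
  have e3 : (n + 2) * (n + 2) = n * n + 4 * n + 4 := by ring
  have e4 : (2 * n + 3) * (2 * n + 3) = 4 * (n * n) + 12 * n + 9 := by ring
  rw [e1] at t1
  rw [e3] at t3
  rw [e4] at t4
  have e5 : n ≤ n * n := Nat.le_mul_self n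
  omega

/-- the non-neighbours of `a` in `1, .., 2n+2` -/
def nb (n a : ℕ) : Finset ℕ :=
  if a = 1 then {2, 3, 4, 5, 6}
  else if a + 5 ≤ n then {a - 6 + 1, a + 5, n + a - 1}
  else {a - 6 + 1, n + a - 1, 2 * n + ex (n - a)}

lemma mem_E_hub (n v : ℕ) (hn : 14 ≤ n) (hv : 1 ≤ v) (hv' : v ≤ 2 * n + 2) : s(0, v) ∈ E n := by
  unfold E
  rw [mem_sdiff]
  constructor
  · unfold Al
    rw [mem_image]
    exact ⟨(0, v), by rw [mem_offDiag, mem_range, mem_range]; exact ⟨by omega, by omega, by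
      change 0 ≠ v
      omega⟩, rfl⟩
  · intro h
    unfold NE at h
    simp only [mem_union, mem_image, mem_offDiag, mem_Ioc, mem_Icc, mem_range, Prod.exists,
      Sym2.eq_iff] at h
    rcases h with (⟨a, b, h⟩ | ⟨b, h⟩) | (⟨a, h⟩ | ⟨i, h⟩) <;> omega

lemma mem_E (n a v : ℕ) (hn : 14 ≤ n) (ha : 1 ≤ a) (ha' : a ≤ n) (hv : 1 ≤ v)
    (hv' : v ≤ 2 * n + 2) (hav : v ≠ a) (hnb : v ∉ nb n a) : s(a, v) ∈ E n := by
  unfold E
  rw [mem_sdiff]
  constructor
  · unfold Al
    rw [mem_image]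
    exact ⟨(a, v), by rw [mem_offDiag, mem_range, mem_range]; exact ⟨by omega, by omega, by
      change a ≠ v
      omega⟩, rfl⟩
  · intro h
    unfold NE at h
    simp only [mem_union, mem_image, mem_offDiag, mem_Ioc, mem_Icc, mem_range, Prod.exists,
      Sym2.eq_iff] at h
    unfold nb at hnb
    split_ifs at hnb with h1 h2
    · simp only [mem_insert, mem_singleton, not_or] at hnb
      rcases h with (⟨a, b, h⟩ | ⟨b, h⟩) | (⟨a, h⟩ | ⟨i, h⟩) <;> omega
    · simp only [mem_insert, mem_singleton, not_or] at hnb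
      rcases h with (⟨a, b, h⟩ | ⟨b, h⟩) | (⟨a, h⟩ | ⟨i, h⟩) <;> omega
    · simp only [mem_insert, mem_singleton, not_or] at hnb
      rcases h with (⟨a, b, h⟩ | ⟨b, h⟩) | (⟨a, h⟩ | ⟨i, h⟩)
      · omega
      · omega
      · omega
      · rcases h.2 with h3 | h3
        · have h4 : n - a = i := by omega
          rw [h4] at hnb
          omega
        · omega

lemma per (f : ℕ → ℕ) (n : ℕ) (hf : ∀ v, 2 ≤ v → v + 5 ≤ n → f (v + 5) = f v) :
    ∀ v, 2 ≤ v → v ≤ n → f v = f (2 + (v - 2) % 5) := by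
  intro v
  induction v using Nat.strong_induction_on with
  | _ v ih =>
    intro h2 hn
    by_cases h7 : v < 7
    · congr 1
      omega
    · have h1 := hf (v - 5) (by omega) (by omega)
      rw [show v - 5 + 5 = v by omega] at h1
      rw [h1, ih (v - 5) (by omega) (by omega) (by omega)]
      congr 1
      omega

lemma sumper (f : ℕ → ℕ) (n : ℕ) (hf : ∀ v, 2 ≤ v → v + 5 ≤ n → f (v + 5) = f v) :
    ∀ N, 6 ≤ N → N ≤ n → ∑ v ∈ Ico 2 (N + 1), f v = f 2 * ((N + 3) / 5) + f 3 * ((N + 2) / 5) +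
      f 4 * ((N + 1) / 5) + f 5 * (N / 5) + f 6 * ((N - 1) / 5) := by
  intro N h6
  induction N, h6 using Nat.le_induction with
  | base =>
    intro _
    simp [Finset.sum_Ico_succ_top]
  | succ N h6 ih =>
    intro hN
    rw [Finset.sum_Ico_succ_top (by omega), ih (by omega), per f n hf (N + 1) (by omega) hN]
    have hb1 : (N + 1 + 2) / 5 = (N + 3) / 5 := by omega
    have hb2 : (N + 1 + 1) / 5 = (N + 2) / 5 := by omega
    have hb4 : (N + 1 - 1) / 5 = N / 5 := by omega
    rw [hb1, hb2, hb4]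
    rcases (by omega : N % 5 = 1 ∨ N % 5 = 2 ∨ N % 5 = 3 ∨ N % 5 = 4 ∨ N % 5 = 0) with
      h | h | h | h | h
    · rw [show (N + 1 - 2) % 5 = 0 by omega, show (N + 1 + 3) / 5 = (N + 3) / 5 + 1 by omega,
        show (N + 3) / 5 = (N - 1) / 5 by omega, show (N + 2) / 5 = (N - 1) / 5 by omega,
        show (N + 1) / 5 = (N - 1) / 5 by omega, show N / 5 = (N - 1) / 5 by omega]
      ring
    · rw [show (N + 1 - 2) % 5 = 1 by omega, show (N + 1 + 3) / 5 = (N + 3) / 5 by omega,
        show (N + 3) / 5 = (N - 1) / 5 + 1 by omega, show (N + 2) / 5 = (N - 1) / 5 by omega,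
        show (N + 1) / 5 = (N - 1) / 5 by omega, show N / 5 = (N - 1) / 5 by omega]
      ring
    · rw [show (N + 1 - 2) % 5 = 2 by omega, show (N + 1 + 3) / 5 = (N + 3) / 5 by omega,
        show (N + 3) / 5 = (N - 1) / 5 + 1 by omega, show (N + 2) / 5 = (N - 1) / 5 + 1 by omega,
        show (N + 1) / 5 = (N - 1) / 5 by omega, show N / 5 = (N - 1) / 5 by omega]
      ring
    · rw [show (N + 1 - 2) % 5 = 3 by omega, show (N + 1 + 3) / 5 = (N + 3) / 5 by omega,
        show (N + 3) / 5 = (N - 1) / 5 + 1 by omega, show (N + 2) / 5 = (N - 1) / 5 + 1 by omega,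
        show (N + 1) / 5 = (N - 1) / 5 + 1 by omega, show N / 5 = (N - 1) / 5 by omega]
      ring
    · rw [show (N + 1 - 2) % 5 = 4 by omega, show (N + 1 + 3) / 5 = (N + 3) / 5 by omega,
        show (N + 3) / 5 = (N - 1) / 5 + 1 by omega, show (N + 2) / 5 = (N - 1) / 5 + 1 by omega,
        show (N + 1) / 5 = (N - 1) / 5 + 1 by omega, show N / 5 = (N - 1) / 5 + 1 by omega]
      ring

lemma arith (n g2 g3 g4 g5 g6 x0 x1 x2 S : ℕ) (hn : 14 ≤ n) (h2 : g2 = 0 ∨ g2 = 1)
    (h3 : g3 = 0 ∨ g3 = 1) (h4 : g4 = 0 ∨ g4 = 1) (h5 : g5 = 0 ∨ g5 = 1) (h6 : g6 = 0 ∨ g6 = 1)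
    (hsum : 3 ≤ g2 + g3 + g4 + g5 + g6)
    (hS : S = g2 * ((n + 3) / 5) + g3 * ((n + 2) / 5) + g4 * ((n + 1) / 5) + g5 * (n / 5) +
      g6 * ((n - 1) / 5)) (htot : 1 + 2 * S + (x0 + x1 + x2) ≤ n + 3)
    (hx : (n % 5 = 0 ∧ g6 ≤ x0 ∧ g2 ≤ x1 ∧ g4 ≤ x2 ∧ g3 ≤ x2 ∧ g5 ≤ x2) ∨
      (n % 5 = 1 ∧ g2 ≤ x0 ∧ g3 ≤ x1 ∧ g5 ≤ x2 ∧ g4 ≤ x2 ∧ g6 ≤ x2) ∨
      (n % 5 = 2 ∧ g3 ≤ x0 ∧ g4 ≤ x1 ∧ g6 ≤ x2 ∧ g5 ≤ x2 ∧ g2 ≤ x2) ∨
      (n % 5 = 3 ∧ g4 ≤ x0 ∧ g5 ≤ x1 ∧ g2 ≤ x2 ∧ g6 ≤ x2 ∧ g3 ≤ x2) ∨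
      (n % 5 = 4 ∧ g5 ≤ x0 ∧ g6 ≤ x1 ∧ g3 ≤ x2 ∧ g2 ≤ x2 ∧ g4 ≤ x2)) : False := by
  rcases h2 with rfl | rfl <;> rcases h3 with rfl | rfl <;> rcases h4 with rfl | rfl <;>
    rcases h5 with rfl | rfl <;> rcases h6 with rfl | rfl <;> omega

/-- the main argument -/
lemma not_good (n m : ℕ) (hn : 14 ≤ n) (hm : 2 * n + 3 ≤ m) (G : SimpleGraph (Fin m))
    (hG : ∀ v w : Fin m, s(v.1, w.1) ∈ E n → G.Adj v w) (c : Fin m → Bool)
    (hc : ∀ v, ({w : Fin m | G.Adj v w ∧ c w = c v} : Set (Fin m)).ncard ≤ n - 1) : False := by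
  classical
  let k : Bool := c ⟨0, by omega⟩
  let c' : ℕ → Bool := fun v => if h : v < m then c ⟨v, h⟩ else k
  have hc' : ∀ (v : ℕ) (h : v < m), c' v = c ⟨v, h⟩ := fun v h => dif_pos h
  have hc0 : c' 0 = k := hc' 0 (by omega)
  -- the bound for the degrees in the own part
  have own : ∀ a : ℕ, a < m → ∀ X : Finset ℕ, (∀ x ∈ X, x < m ∧ s(a, x) ∈ E n ∧ c' x = c' a) →
      X.card ≤ n - 1 := by
    intro a ha X hX
    have h1 := hc ⟨a, ha⟩
    have h2 : (((X.attachFin fun x hx => (hX x hx).1) : Finset (Fin m)) : Set (Fin m)) ⊆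
        {w : Fin m | G.Adj ⟨a, ha⟩ w ∧ c w = c ⟨a, ha⟩} := by
      intro w hw
      rw [mem_coe, mem_attachFin] at hw
      obtain ⟨h3, h4, h5⟩ := hX w.1 hw
      refine ⟨hG _ _ h4, ?_⟩
      rw [hc' w.1 w.2, hc' a ha] at h5
      exact h5
    have h3 := Set.ncard_le_ncard h2 (Set.toFinite _)
    rw [Set.ncard_coe_finset, card_attachFin] at h3
    omega
  let B : Finset ℕ := (Icc 1 (2 * n + 2)).filter (fun v => c' v ≠ k)
  have memB : ∀ v, v ∈ B ↔ (1 ≤ v ∧ v ≤ 2 * n + 2) ∧ c' v ≠ k := by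
    intro v
    simp only [B, mem_filter, mem_Icc]
  -- the hub
  have hB1 : n + 3 ≤ B.card := by
    have h1 := own 0 (by omega) ((Icc 1 (2 * n + 2)).filter (fun v => c' v = k)) (by
      intro x hx
      rw [mem_filter, mem_Icc] at hx
      refine ⟨by omega, mem_E_hub n x hn hx.1.1 hx.1.2, ?_⟩
      rw [hx.2, hc0])
    have h2 := card_filter_add_card_filter_not (s := Icc 1 (2 * n + 2)) (fun v => c' v = k)
    rw [Nat.card_Icc] at h2
    have h3 : B.card = ((Icc 1 (2 * n + 2)).filter (fun v => ¬ c' v = k)).card := rfl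
    omega
  -- the vertices `1, .., n` on the other side
  have hkey : ∀ a ∈ B, a ≤ n → B.card ≤ n + (B ∩ nb n a).card := by
    intro a ha han
    obtain ⟨⟨ha1, ha2⟩, ha3⟩ := (memB a).1 ha
    have h1 := own a (by omega) ((B.erase a) \ nb n a) (by
      intro x hx
      rw [mem_sdiff, mem_erase] at hx
      obtain ⟨⟨hx1, hx2⟩, hx3⟩ := (memB x).1 hx.1.2
      refine ⟨by omega, mem_E n a x hn ha1 han hx1 hx2 hx.1.1 hx.2, ?_⟩
      revert hx3 ha3
      cases c' x <;> cases c' a <;> cases k <;> simp)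
    have h2 : ((B.erase a) \ nb n a).card + ((B.erase a) ∩ nb n a).card = (B.erase a).card :=
      card_sdiff_add_card_inter _ _
    have h3 : ((B.erase a) ∩ nb n a).card ≤ (B ∩ nb n a).card :=
      card_le_card (inter_subset_inter (erase_subset _ _) (subset_refl _))
    rw [card_erase_of_mem ha] at h2
    omega
  -- consequences
  have hup : ∀ a ∈ B, 2 ≤ a → a + 5 ≤ n →
      B.card ≤ n + 3 ∧ a - 6 + 1 ∈ B ∧ a + 5 ∈ B ∧ n + a - 1 ∈ B := by
    intro a ha h2 h5
    have h1 := hkey a ha (by omega)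
    have hnb : nb n a = {a - 6 + 1, a + 5, n + a - 1} := by
      unfold nb
      rw [if_neg (by omega), if_pos h5]
    have h3 : (nb n a).card ≤ 3 := by
      rw [hnb]
      exact card_le_three
    have h4 : (B ∩ nb n a).card ≤ (nb n a).card := card_le_card inter_subset_right
    have h6 : B ∩ nb n a = nb n a := eq_of_subset_of_card_le inter_subset_right (by omega)
    have h7 : nb n a ⊆ B := by
      rw [← h6]
      exact inter_subset_left
    rw [hnb] at h7
    refine ⟨by omega, h7 (by simp), h7 (by simp), h7 (by simp)⟩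
  have hleaf : ∀ a ∈ B, 2 ≤ a → a ≤ n → n < a + 5 →
      B.card ≤ n + 3 ∧ a - 6 + 1 ∈ B ∧ n + a - 1 ∈ B ∧ 2 * n + ex (n - a) ∈ B := by
    intro a ha h2 han h5
    have h1 := hkey a ha (by omega)
    have hnb : nb n a = {a - 6 + 1, n + a - 1, 2 * n + ex (n - a)} := by
      unfold nb
      rw [if_neg (by omega), if_neg (by omega)]
    have h3 : (nb n a).card ≤ 3 := by
      rw [hnb]
      exact card_le_three
    have h4 : (B ∩ nb n a).card ≤ (nb n a).card := card_le_card inter_subset_right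
    have h6 : B ∩ nb n a = nb n a := eq_of_subset_of_card_le inter_subset_right (by omega)
    have h7 : nb n a ⊆ B := by
      rw [← h6]
      exact inter_subset_left
    rw [hnb] at h7
    refine ⟨by omega, h7 (by simp), h7 (by simp), h7 (by simp)⟩
  have hpar : ∀ a ∈ B, 2 ≤ a → a ≤ n → a - 6 + 1 ∈ B ∧ n + a - 1 ∈ B ∧ B.card ≤ n + 3 := by
    intro a ha h2 han
    by_cases h5 : a + 5 ≤ n
    · obtain ⟨h6, h7, h8, h9⟩ := hup a ha h2 h5
      exact ⟨h7, h9, h6⟩
    · obtain ⟨h6, h7, h8, h9⟩ := hleaf a ha h2 han (by omega)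
      exact ⟨h7, h8, h6⟩
  -- the centre is in `B`
  have h1B : 1 ∈ B := by
    obtain ⟨a, ha, han⟩ : ∃ a ∈ B, a ≤ n := by
      by_contra hcon
      push Not at hcon
      have h1 : B ⊆ Icc (n + 1) (2 * n + 2) := by
        intro v hv
        have h2 := hcon v hv
        have h3 := (memB v).1 hv
        rw [mem_Icc]
        omega
      have h2 := card_le_card h1
      rw [Nat.card_Icc] at h2
      omega
    induction a using Nat.strong_induction_on with
    | _ a ih =>
      by_cases h1 : a = 1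
      · rw [← h1]
        exact ha
      · have h2 := ((memB a).1 ha).1.1
        exact ih (a - 6 + 1) (by omega) (hpar a ha (by omega) han).1 (by omega)
  let f : ℕ → ℕ := fun v => if v ∈ B then 1 else 0
  have hf1 : ∀ v, v ∈ B → f v = 1 := fun v hv => if_pos hv
  have hf0 : ∀ v, v ∉ B → f v = 0 := fun v hv => if_neg hv
  have hf01 : ∀ v, f v = 0 ∨ f v = 1 := by
    intro v
    by_cases h : v ∈ B
    · exact Or.inr (hf1 v h)
    · exact Or.inl (hf0 v h)
  have hfle : ∀ v w, (v ∈ B → w ∈ B) → f v ≤ f w := by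
    intro v w h
    by_cases hv : v ∈ B
    · rw [hf1 v hv, hf1 w (h hv)]
    · rw [hf0 v hv]
      exact Nat.zero_le _
  have hper : ∀ v, 2 ≤ v → v + 5 ≤ n → f (v + 5) = f v := by
    intro v h2 h5
    apply le_antisymm
    · apply hfle
      intro h
      have h3 := (hpar (v + 5) h (by omega) h5).1
      rwa [show v + 5 - 6 + 1 = v by omega] at h3
    · apply hfle
      intro h
      exact (hup v h h2 h5).2.2.1
  have hsum3 : 3 ≤ f 2 + f 3 + f 4 + f 5 + f 6 := by
    have h1 := hkey 1 h1B (by omega)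
    have hnb : nb n 1 = {2, 3, 4, 5, 6} := by
      unfold nb
      rw [if_pos rfl]
    have h2 : (B ∩ nb n 1).card = ∑ v ∈ nb n 1, f v := by
      rw [inter_comm, ← filter_mem_eq_inter, card_filter]
    rw [hnb] at h2
    have h3 : ∑ v ∈ ({2, 3, 4, 5, 6} : Finset ℕ), f v = f 2 + f 3 + f 4 + f 5 + f 6 := by
      rw [sum_insert (by simp), sum_insert (by simp), sum_insert (by simp), sum_insert (by simp),
        sum_singleton]
      ring
    rw [h3, ← hnb] at h2
    omega
  have hBle : B.card ≤ n + 3 := by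
    have h1 : ∃ a, 2 ≤ a ∧ a ≤ 6 ∧ a ∈ B := by
      by_contra hcon
      push Not at hcon
      rw [hf0 2 (hcon 2 (by omega) (by omega)), hf0 3 (hcon 3 (by omega) (by omega)),
        hf0 4 (hcon 4 (by omega) (by omega)), hf0 5 (hcon 5 (by omega) (by omega)),
        hf0 6 (hcon 6 (by omega) (by omega))] at hsum3
      omega
    obtain ⟨a, h2, h3, h4⟩ := h1
    exact (hpar a h4 h2 (by omega)).2.2
  -- the number of the elements
  have hcount : B.card = f 1 + ∑ v ∈ Ico 2 (n + 1), f v + ∑ v ∈ Ico (n + 1) (2 * n), f v +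
      (f (2 * n) + f (2 * n + 1) + f (2 * n + 2)) := by
    have h1 : B.card = ∑ v ∈ Ico 1 (2 * n + 3), f v := by
      have h2 : B = (Ico 1 (2 * n + 3)).filter (fun v => v ∈ B) := by
        ext v
        constructor
        · intro h
          have h3 := (memB v).1 h
          exact mem_filter.2 ⟨mem_Ico.2 (by omega), h⟩
        · intro h
          exact (mem_filter.1 h).2
      conv_lhs => rw [h2]
      rw [card_filter]
    rw [h1, ← sum_Ico_consecutive f (show 1 ≤ 2 by omega) (show 2 ≤ 2 * n + 3 by omega),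
      ← sum_Ico_consecutive f (show 2 ≤ n + 1 by omega) (show n + 1 ≤ 2 * n + 3 by omega),
      ← sum_Ico_consecutive f (show n + 1 ≤ 2 * n by omega) (show 2 * n ≤ 2 * n + 3 by omega),
      sum_Ico_succ_top (show 2 * n ≤ 2 * n + 2 by omega),
      sum_Ico_succ_top (show 2 * n ≤ 2 * n + 1 by omega),
      sum_Ico_succ_top (show 2 * n ≤ 2 * n by omega), Ico_self, sum_empty,
      show Ico 1 2 = {1} from rfl, sum_singleton]
    ring
  have hcopy : ∑ v ∈ Ico 2 (n + 1), f v ≤ ∑ v ∈ Ico (n + 1) (2 * n), f v := by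
    have h1 : ∑ v ∈ Ico 2 (n + 1), f (v + (n - 1)) = ∑ v ∈ Ico (n + 1) (2 * n), f v := by
      rw [sum_Ico_add' f 2 (n + 1) (n - 1)]
      congr 2 <;> omega
    rw [← h1]
    apply sum_le_sum
    intro v hv
    rw [mem_Ico] at hv
    apply hfle
    intro h
    have h2 := (hpar v h hv.1 (by omega)).2.1
    rwa [show n + v - 1 = v + (n - 1) by omega] at h2
  have hS := sumper f n hper n (by omega) le_rfl
  have hx0 : f (n - 4) ≤ f (2 * n) := by
    apply hfle
    intro h
    have h1 := (hleaf (n - 4) h (by omega) (by omega) (by omega)).2.2.2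
    rwa [show n - (n - 4) = 4 by omega] at h1
  have hx1 : f (n - 3) ≤ f (2 * n + 1) := by
    apply hfle
    intro h
    have h1 := (hleaf (n - 3) h (by omega) (by omega) (by omega)).2.2.2
    rwa [show n - (n - 3) = 3 by omega] at h1
  have hx1' : f (n - 1) ≤ f (2 * n + 2) := by
    apply hfle
    intro h
    have h1 := (hleaf (n - 1) h (by omega) (by omega) (by omega)).2.2.2
    rwa [show n - (n - 1) = 1 by omega] at h1
  have hx2 : f (n - 2) ≤ f (2 * n + 2) := by
    apply hfle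
    intro h
    have h1 := (hleaf (n - 2) h (by omega) (by omega) (by omega)).2.2.2
    rwa [show n - (n - 2) = 2 by omega] at h1
  have hx2' : f n ≤ f (2 * n + 2) := by
    apply hfle
    intro h
    have h1 := (hleaf n h (by omega) (by omega) (by omega)).2.2.2
    rwa [show n - n = 0 by omega] at h1
  have p0 := per f n hper n (by omega) (by omega)
  have p1 := per f n hper (n - 1) (by omega) (by omega)
  have p2 := per f n hper (n - 2) (by omega) (by omega)
  have p3 := per f n hper (n - 3) (by omega) (by omega)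
  have p4 := per f n hper (n - 4) (by omega) (by omega)
  rw [hf1 1 h1B] at hcount
  apply arith n (f 2) (f 3) (f 4) (f 5) (f 6) (f (2 * n)) (f (2 * n + 1)) (f (2 * n + 2)) _ hn
    (hf01 2) (hf01 3) (hf01 4) (hf01 5) (hf01 6) hsum3 hS (by omega)
  rcases (by omega : n % 5 = 0 ∨ n % 5 = 1 ∨ n % 5 = 2 ∨ n % 5 = 3 ∨ n % 5 = 4) with
    h | h | h | h | h
  · left
    rw [show (n - 2) % 5 = 3 by omega] at p0
    rw [show (n - 1 - 2) % 5 = 2 by omega] at p1
    rw [show (n - 2 - 2) % 5 = 1 by omega] at p2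
    rw [show (n - 3 - 2) % 5 = 0 by omega] at p3
    rw [show (n - 4 - 2) % 5 = 4 by omega] at p4
    rw [p0] at hx2'
    rw [p1] at hx1'
    rw [p2] at hx2
    rw [p3] at hx1
    rw [p4] at hx0
    exact ⟨h, hx0, hx1, hx1', hx2, hx2'⟩
  · right; left
    rw [show (n - 2) % 5 = 4 by omega] at p0
    rw [show (n - 1 - 2) % 5 = 3 by omega] at p1
    rw [show (n - 2 - 2) % 5 = 2 by omega] at p2
    rw [show (n - 3 - 2) % 5 = 1 by omega] at p3
    rw [show (n - 4 - 2) % 5 = 0 by omega] at p4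
    rw [p0] at hx2'
    rw [p1] at hx1'
    rw [p2] at hx2
    rw [p3] at hx1
    rw [p4] at hx0
    exact ⟨h, hx0, hx1, hx1', hx2, hx2'⟩
  · right; right; left
    rw [show (n - 2) % 5 = 0 by omega] at p0
    rw [show (n - 1 - 2) % 5 = 4 by omega] at p1
    rw [show (n - 2 - 2) % 5 = 3 by omega] at p2
    rw [show (n - 3 - 2) % 5 = 2 by omega] at p3
    rw [show (n - 4 - 2) % 5 = 1 by omega] at p4
    rw [p0] at hx2'
    rw [p1] at hx1'
    rw [p2] at hx2
    rw [p3] at hx1
    rw [p4] at hx0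
    exact ⟨h, hx0, hx1, hx1', hx2, hx2'⟩
  · right; right; right; left
    rw [show (n - 2) % 5 = 1 by omega] at p0
    rw [show (n - 1 - 2) % 5 = 0 by omega] at p1
    rw [show (n - 2 - 2) % 5 = 4 by omega] at p2
    rw [show (n - 3 - 2) % 5 = 3 by omega] at p3
    rw [show (n - 4 - 2) % 5 = 2 by omega] at p4
    rw [p0] at hx2'
    rw [p1] at hx1'
    rw [p2] at hx2
    rw [p3] at hx1
    rw [p4] at hx0
    exact ⟨h, hx0, hx1, hx1', hx2, hx2'⟩
  · right; right; right; right
    rw [show (n - 2) % 5 = 2 by omega] at p0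
    rw [show (n - 1 - 2) % 5 = 1 by omega] at p1
    rw [show (n - 2 - 2) % 5 = 0 by omega] at p2
    rw [show (n - 3 - 2) % 5 = 4 by omega] at p3
    rw [show (n - 4 - 2) % 5 = 3 by omega] at p4
    rw [p0] at hx2'
    rw [p1] at hx1'
    rw [p2] at hx2
    rw [p3] at hx1
    rw [p4] at hx0
    exact ⟨h, hx0, hx1, hx1', hx2, hx2'⟩

/-- For every `n ≥ 14` and every `m ≥ 2n + 3` some graph with `m` vertices and exactly
`binom(2n+1,2) - binom(n,2) - 1` edges is not the union of a bipartite graph and a graph of maximum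
degree at most `n - 1`. -/
theorem fails : ∀ n : ℕ, 14 ≤ n → ∀ m : ℕ, 2 * n + 3 ≤ m →
    ∃ G : SimpleGraph (Fin m), G.edgeSet.ncard = (2 * n + 1).choose 2 - n.choose 2 - 1 ∧
      ¬ ∃ B D : SimpleGraph (Fin m), B.Colorable 2 ∧ (∀ v, (D.neighborSet v).ncard ≤ n - 1) ∧
        G = B ⊔ D := by
  classical
  intro n hn m hm
  let G : SimpleGraph (Fin m) := SimpleGraph.fromRel (fun v w : Fin m => s(v.1, w.1) ∈ E n)
  have hne : ∀ a b : ℕ, s(a, b) ∈ E n → a ≠ b ∧ a < m ∧ b < m := by
    intro a b h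
    have h1 : s(a, b) ∈ Al n := (mem_sdiff.1 h).1
    unfold Al at h1
    simp only [mem_image, mem_offDiag, mem_range, Prod.exists, Sym2.eq_iff] at h1
    obtain ⟨x, y, h2, h3⟩ := h1
    omega
  have hadj : ∀ v w : Fin m, G.Adj v w ↔ s(v.1, w.1) ∈ E n := by
    intro v w
    rw [SimpleGraph.fromRel_adj]
    constructor
    · rintro ⟨_, h | h⟩
      · exact h
      · rwa [Sym2.eq_swap]
    · intro h
      exact ⟨fun h' => (hne _ _ h).1 (congrArg Fin.val h'), Or.inl h⟩
  refine ⟨G, ?_, ?_⟩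
  · have h1 : (Sym2.map Fin.val) '' G.edgeSet = (E n : Set (Sym2 ℕ)) := by
      ext e
      constructor
      · rintro ⟨e', he', rfl⟩
        induction e' using Sym2.ind with
        | _ v w =>
          exact (hadj v w).1 he'
      · intro he
        induction e using Sym2.ind with
        | _ a b =>
          obtain ⟨h2, h3, h4⟩ := hne a b he
          refine ⟨s(⟨a, h3⟩, ⟨b, h4⟩), ?_, rfl⟩
          exact (hadj ⟨a, h3⟩ ⟨b, h4⟩).2 he
    have h2 : G.edgeSet.ncard = ((Sym2.map Fin.val) '' G.edgeSet).ncard :=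
      (Set.ncard_image_of_injective _ (Sym2.map.injective Fin.val_injective)).symm
    rw [h2, h1, Set.ncard_coe_finset, card_E n hn]
  · rintro ⟨B, D, hB, hD, hG⟩
    obtain ⟨C⟩ := hB
    refine not_good n m hn hm G (fun v w h => (hadj v w).2 h) (fun v => decide (C v = 0)) ?_
    intro v
    refine le_trans ?_ (hD v)
    apply Set.ncard_le_ncard _ (Set.toFinite _)
    intro w hw
    rw [SimpleGraph.mem_neighborSet]
    have hadj' : (B ⊔ D).Adj v w := by rw [← hG]; exact hw.1
    rw [SimpleGraph.sup_adj] at hadj'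
    rcases hadj' with h | h
    · exfalso
      have hne' := C.valid h
      have heq := hw.2
      rw [decide_eq_decide] at heq
      have c1 : C v = 0 ∨ C v = 1 := by
        generalize C v = x; fin_cases x <;> simp
      have c2 : C w = 0 ∨ C w = 1 := by
        generalize C w = x; fin_cases x <;> simp
      rcases c1 with h1 | h1 <;> rcases c2 with h2 | h2 <;> simp_all
    · exact h

end Pool.Agent.Lib.MP_270b6b_co.Spider14
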