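import Pool.Agent.Lib.MP_270b6b_co.Cert

/-!
# MP_270b6b_co: the smallest counterexamples found for `5 ≤ n ≤ 13` (helper87)

Lists for `Cert.fails_of`: the assertion fails on `m` vertices for `n = 5, m ≥ 16`, `n = 6, m ≥ 17`,
`n = 7, m ≥ 18`, `n = 8, m ≥ 19`, `n = 9, m ≥ 22` and `n = 10, 11, 12, 13, m ≥ 2n + 3`.
-/

set_option autoImplicit false

namespace Pool.Agent.Lib.MP_270b6b_co.Small

open Cert

/-- the non-edges at `1, .., 5`, on `16` vertices -/
def L5 : List (ℕ × ℕ) :=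
  [(1, 2), (1, 4), (1, 5), (1, 11), (1, 12), (1, 13), (1, 14), (1, 15), (2, 3), (2, 6), (2, 7),
  (2, 8), (2, 9), (2, 10), (3, 4), (3, 5), (3, 11), (3, 12), (3, 13), (3, 14), (3, 15), (4, 6),
  (4, 7), (4, 8), (4, 9), (4, 10), (5, 6), (5, 7), (5, 8), (5, 9), (5, 10)]

lemma ok5 : ok 5 6 L5 = true := by decide +kernel

/-- the assertion fails for `n = 5` on every number `m ≥ 16` of vertices -/
theorem fails5 : ∀ m : ℕ, 16 ≤ m →
    ∃ G : SimpleGraph (Fin m), G.edgeSet.ncard = (2 * 5 + 1).choose 2 - Nat.choose 5 2 - 1 ∧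
      ¬ ∃ B D : SimpleGraph (Fin m), B.Colorable 2 ∧ (∀ v, (D.neighborSet v).ncard ≤ 5 - 1) ∧
        G = B ⊔ D :=
  fun m hm => fails_of 5 6 L5 (by norm_num) (by norm_num) ok5 (by decide +kernel) m hm

/-- the non-edges at `1, .., 6`, on `17` vertices -/
def L6 : List (ℕ × ℕ) :=
  [(1, 2), (1, 3), (1, 7), (1, 8), (1, 10), (1, 14), (2, 4), (2, 5), (2, 6), (2, 11), (2, 15),
  (2, 16), (3, 4), (3, 5), (3, 6), (3, 9), (3, 11), (4, 7), (4, 8), (4, 12), (4, 13), (5, 7),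
  (5, 9), (5, 10), (5, 13), (6, 8), (6, 9), (6, 12), (6, 14)]

lemma ok6 : ok 6 5 L6 = true := by decide +kernel

/-- the assertion fails for `n = 6` on every number `m ≥ 17` of vertices -/
theorem fails6 : ∀ m : ℕ, 17 ≤ m →
    ∃ G : SimpleGraph (Fin m), G.edgeSet.ncard = (2 * 6 + 1).choose 2 - Nat.choose 6 2 - 1 ∧
      ¬ ∃ B D : SimpleGraph (Fin m), B.Colorable 2 ∧ (∀ v, (D.neighborSet v).ncard ≤ 6 - 1) ∧
        G = B ⊔ D :=
  fun m hm => fails_of 6 5 L6 (by norm_num) (by norm_num) ok6 (by decide +kernel) m hm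

/-- the non-edges at `1, .., 7`, on `18` vertices -/
def L7 : List (ℕ × ℕ) :=
  [(1, 2), (1, 8), (1, 9), (1, 11), (2, 3), (2, 4), (2, 6), (2, 10), (3, 5), (3, 11), (3, 13),
  (3, 16), (4, 5), (4, 9), (4, 12), (4, 14), (5, 6), (5, 7), (5, 8), (6, 12), (6, 15), (6, 17),
  (7, 8), (7, 10), (7, 13)]

lemma ok7 : ok 7 4 L7 = true := by decide +kernel

/-- the assertion fails for `n = 7` on every number `m ≥ 18` of vertices -/
theorem fails7 : ∀ m : ℕ, 18 ≤ m →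
    ∃ G : SimpleGraph (Fin m), G.edgeSet.ncard = (2 * 7 + 1).choose 2 - Nat.choose 7 2 - 1 ∧
      ¬ ∃ B D : SimpleGraph (Fin m), B.Colorable 2 ∧ (∀ v, (D.neighborSet v).ncard ≤ 7 - 1) ∧
        G = B ⊔ D :=
  fun m hm => fails_of 7 4 L7 (by norm_num) (by norm_num) ok7 (by decide +kernel) m hm

/-- the non-edges at `1, .., 8`, on `19` vertices -/
def L8 : List (ℕ × ℕ) :=
  [(1, 2), (1, 5), (1, 9), (2, 3), (2, 8), (2, 10), (3, 4), (3, 6), (4, 7), (4, 11), (4, 12),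
  (5, 6), (5, 7), (5, 13), (6, 14), (6, 15), (7, 8), (8, 16), (8, 17)]

lemma ok8 : ok 8 3 L8 = true := by decide +kernel

/-- the assertion fails for `n = 8` on every number `m ≥ 19` of vertices -/
theorem fails8 : ∀ m : ℕ, 19 ≤ m →
    ∃ G : SimpleGraph (Fin m), G.edgeSet.ncard = (2 * 8 + 1).choose 2 - Nat.choose 8 2 - 1 ∧
      ¬ ∃ B D : SimpleGraph (Fin m), B.Colorable 2 ∧ (∀ v, (D.neighborSet v).ncard ≤ 8 - 1) ∧
        G = B ⊔ D :=
  fun m hm => fails_of 8 3 L8 (by norm_num) (by norm_num) ok8 (by decide +kernel) m hm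

/-- the non-edges at `1, .., 9`, on `22` vertices -/
def L9 : List (ℕ × ℕ) :=
  [(1, 2), (1, 5), (1, 9), (1, 10), (1, 11), (2, 3), (2, 12), (2, 13), (3, 4), (3, 6), (3, 7),
  (3, 14), (4, 5), (4, 12), (4, 15), (4, 16), (5, 6), (5, 17), (5, 18), (6, 8), (6, 13),
  (6, 19), (7, 10), (7, 11), (7, 15), (8, 9), (8, 10), (8, 20), (8, 21), (9, 12), (9, 16)]

lemma ok9 : ok 9 4 L9 = true := by decide +kernel

/-- the assertion fails for `n = 9` on every number `m ≥ 22` of vertices -/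
theorem fails9 : ∀ m : ℕ, 22 ≤ m →
    ∃ G : SimpleGraph (Fin m), G.edgeSet.ncard = (2 * 9 + 1).choose 2 - Nat.choose 9 2 - 1 ∧
      ¬ ∃ B D : SimpleGraph (Fin m), B.Colorable 2 ∧ (∀ v, (D.neighborSet v).ncard ≤ 9 - 1) ∧
        G = B ⊔ D :=
  fun m hm => fails_of 9 4 L9 (by norm_num) (by norm_num) ok9 (by decide +kernel) m hm

/-- the non-edges at `1, .., 10`, on `23` vertices -/
def L10 : List (ℕ × ℕ) :=
  [(1, 2), (1, 5), (1, 11), (2, 3), (2, 12), (2, 13), (3, 4), (3, 6), (4, 5), (4, 14), (4, 15),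
  (5, 7), (5, 9), (6, 7), (6, 8), (7, 10), (7, 16), (8, 9), (8, 17), (8, 18), (9, 19),
  (10, 20), (10, 21)]

lemma ok10 : ok 10 3 L10 = true := by decide +kernel

/-- the assertion fails for `n = 10` on every number `m ≥ 23` of vertices -/
theorem fails10 : ∀ m : ℕ, 23 ≤ m →
    ∃ G : SimpleGraph (Fin m), G.edgeSet.ncard = (2 * 10 + 1).choose 2 - Nat.choose 10 2 - 1 ∧
      ¬ ∃ B D : SimpleGraph (Fin m), B.Colorable 2 ∧ (∀ v, (D.neighborSet v).ncard ≤ 10 - 1) ∧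
        G = B ⊔ D :=
  fun m hm => fails_of 10 3 L10 (by norm_num) (by norm_num) ok10 (by decide +kernel) m hm

/-- the non-edges at `1, .., 11`, on `25` vertices -/
def L11 : List (ℕ × ℕ) :=
  [(1, 2), (1, 7), (1, 10), (1, 12), (2, 3), (2, 13), (3, 4), (3, 5), (3, 14), (4, 8), (4, 15),
  (5, 6), (5, 9), (6, 7), (6, 11), (6, 16), (7, 8), (8, 13), (8, 17), (9, 10), (9, 18),
  (9, 19), (10, 20), (11, 21), (11, 22)]

lemma ok11 : ok 11 3 L11 = true := by decide +kernel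

/-- the assertion fails for `n = 11` on every number `m ≥ 25` of vertices -/
theorem fails11 : ∀ m : ℕ, 25 ≤ m →
    ∃ G : SimpleGraph (Fin m), G.edgeSet.ncard = (2 * 11 + 1).choose 2 - Nat.choose 11 2 - 1 ∧
      ¬ ∃ B D : SimpleGraph (Fin m), B.Colorable 2 ∧ (∀ v, (D.neighborSet v).ncard ≤ 11 - 1) ∧
        G = B ⊔ D :=
  fun m hm => fails_of 11 3 L11 (by norm_num) (by norm_num) ok11 (by decide +kernel) m hm

/-- the non-edges at `1, .., 12`, on `27` vertices -/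
def L12 : List (ℕ × ℕ) :=
  [(1, 2), (1, 6), (1, 13), (2, 3), (2, 14), (2, 15), (3, 4), (3, 5), (4, 10), (4, 16), (4, 17),
  (5, 6), (5, 9), (5, 11), (6, 7), (7, 8), (7, 18), (7, 19), (8, 9), (8, 10), (9, 12), (9, 20),
  (10, 11), (11, 21), (11, 22), (12, 23), (12, 24)]

lemma ok12 : ok 12 3 L12 = true := by decide +kernel

/-- the assertion fails for `n = 12` on every number `m ≥ 27` of vertices -/
theorem fails12 : ∀ m : ℕ, 27 ≤ m →
    ∃ G : SimpleGraph (Fin m), G.edgeSet.ncard = (2 * 12 + 1).choose 2 - Nat.choose 12 2 - 1 ∧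
      ¬ ∃ B D : SimpleGraph (Fin m), B.Colorable 2 ∧ (∀ v, (D.neighborSet v).ncard ≤ 12 - 1) ∧
        G = B ⊔ D :=
  fun m hm => fails_of 12 3 L12 (by norm_num) (by norm_num) ok12 (by decide +kernel) m hm

/-- the non-edges at `1, .., 13`, on `29` vertices -/
def L13 : List (ℕ × ℕ) :=
  [(1, 2), (1, 12), (1, 14), (2, 3), (2, 5), (2, 15), (3, 4), (3, 16), (4, 7), (4, 13), (5, 6),
  (5, 9), (6, 7), (6, 10), (6, 11), (7, 8), (7, 17), (8, 9), (8, 18), (9, 14), (9, 18),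
  (10, 19), (10, 20), (11, 12), (11, 13), (12, 21), (12, 22), (13, 23), (13, 24)]

lemma ok13 : ok 13 3 L13 = true := by decide +kernel

/-- the assertion fails for `n = 13` on every number `m ≥ 29` of vertices -/
theorem fails13 : ∀ m : ℕ, 29 ≤ m →
    ∃ G : SimpleGraph (Fin m), G.edgeSet.ncard = (2 * 13 + 1).choose 2 - Nat.choose 13 2 - 1 ∧
      ¬ ∃ B D : SimpleGraph (Fin m), B.Colorable 2 ∧ (∀ v, (D.neighborSet v).ncard ≤ 13 - 1) ∧
        G = B ⊔ D :=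
  fun m hm => fails_of 13 3 L13 (by norm_num) (by norm_num) ok13 (by decide +kernel) m hm

end Pool.Agent.Lib.MP_270b6b_co.Small
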